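import Pool.Agent.H80.NA.Si
import Pool.Agent.H80.NA.Ske
import Pool.Agent.H46.XB.Vf
import Pool.Agent.H98.NX.El

/-!
ROW Sa (MP_b319aa_NA, S7: minimality against the interpolation).
PROOF. `s7_eq`: `sp_eq_on` (`NX/El.lean`) with the open set `U \ Zr r` (`⊆ Gd r`; `Zr r` is a closed ball, `P` does not meet `U`), `A = S ∩ U`. `s7_pt`: on `S ∩ U`: `ip gm g G h = ip gm u w h` on `S`, so the speeds are a.e. equal (`sp_eq_on` again: both are `Lpo` on `U \ Zr r`, `lpo_gm`, `lpo_const`), and those of `g, u` and `G, w`: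
`hq` gives the claim. On `U \ S` the indicator vanishes: `sp_one` at the points of `ip_good` (a.e.), `mt ≥ 0` (`mt_nonneg`).
`s7_a`: `H = ip gm g G (fun _ => h)` is in `Cl0` (`cl0_const`), so `Ex x y g ≤ E0 + ep ≤ Ex x y H + ep`; `s7_pt` for `t = f1 x y, f2 x y`, integrate over `U` (`sp_all_int`; the indicator functions are integrable on `U` since `q t` is integrable on `S ∩ U`):
`Ex x y H ≤ (1 - h) Ex x y g + h Ex x y G - h (1 - h) ∫_{S ∩ U} (q (f1 x y) + q (f2 x y))` (`setIntegral_indicator`).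
-/

set_option autoImplicit false

namespace H46NS

open H50NA H98NX H46XB MeasureTheory Set Filter Topology
open H80HM (D U P f1 f2)

variable {X : Type} [MetricSpace X] {gm : X → X → ℝ → X} {A B C : X ≃ᵢ X}

theorem s7_eq {r : ℝ} {S : Set (ℝ × ℝ)} (hS : IsCompact S) (hSG : S ⊆ Gd r) {u g : ℝ × ℝ → X} (hu : Lpo u (Gd r))
    (hg : Lpo g (D \ P)) (hgu : ∀ z ∈ S, g z = u z) (t : ℝ × ℝ) :
    ∀ᵐ z ∂(volume : Measure (ℝ × ℝ)), z ∈ S ∩ U → sp g t z = sp u t z := by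
  have hO : IsOpen (U \ Zr r) := U_open.sdiff Metric.isClosed_closedBall
  have h1 : U \ Zr r ⊆ D \ P := fun z hz => U_sub hz.1
  have h2 : U \ Zr r ⊆ Gd r := fun z hz => ⟨(U_sub hz.1).1, fun h => by
    rcases h with h | h
    · exact (U_sub hz.1).2 h
    · exact hz.2 h⟩
  have hAO : S ∩ U ⊆ U \ Zr r := fun z hz => ⟨hz.2, fun h => (hSG hz.1).2 (Or.inr h)⟩
  exact sp_eq_on volume hO (lpo_mono h1 hg) (lpo_mono h2 hu)
    (hS.measurableSet.inter U_open.measurableSet) hAO (fun z hz => hgu z hz.1) t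

theorem s7_pt (hX : Npc X gm) {r : ℝ} {S : Set (ℝ × ℝ)} (hS : IsCompact S) (hSG : S ⊆ Gd r) {u w g G : ℝ × ℝ → X}
    (hu : Lpo u (Gd r)) (hw : Lpo w (Gd r)) (hg : Lpo g (D \ P)) (hG : Lpo G (D \ P)) (hgu : ∀ z ∈ S, g z = u z)
    (hGw : ∀ z ∈ S, G z = w z) {h : ℝ} (h0 : 0 ≤ h) (h1 : h ≤ 1) {q : ℝ × ℝ → ℝ} {t : ℝ × ℝ}
    (hq : ∀ᵐ z ∂(volume : Measure (ℝ × ℝ)), z ∈ S ∩ U → sp (ip gm u w (fun _ => h)) t z ^ 2 ≤
      (1 - h) * sp u t z ^ 2 + h * sp w t z ^ 2 - h * (1 - h) * q z) :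
    ∀ᵐ z ∂(volume : Measure (ℝ × ℝ)), z ∈ U → sp (ip gm g G (fun _ => h)) t z ^ 2 ≤
      (1 - h) * sp g t z ^ 2 + h * sp G t z ^ 2 - h * (1 - h) * S.indicator q z := by
  have e1 := s7_eq hS hSG hu hg hgu t
  have e2 := s7_eq hS hSG hw hG hGw t
  have e3 := s7_eq (u := ip gm u w (fun _ => h)) (g := ip gm g G (fun _ => h)) hS hSG
    (lpo_gm hX hu hw (lpo_const h _) fun _ _ => ⟨h0, h1⟩)
    (lpo_gm hX hg hG (lpo_const h _) fun _ _ => ⟨h0, h1⟩)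
    (fun z hz => by
      unfold ip
      rw [hgu z hz, hGw z hz]) t
  have hgood := ip_good (volume : Measure (ℝ × ℝ)) hX U_open (lpo_mono U_sub hg) (lpo_mono U_sub hG)
    (lpo_const h U) (fun _ _ => ⟨h0, h1⟩)
  filter_upwards [e1, e2, e3, hq, hgood] with z z1 z2 z3 z4 z5 hzU
  by_cases hzS : z ∈ S
  · rw [Set.indicator_of_mem hzS, z3 ⟨hzS, hzU⟩, z1 ⟨hzS, hzU⟩, z2 ⟨hzS, hzU⟩]
    exact z4 ⟨hzS, hzU⟩
  · rw [Set.indicator_of_notMem hzS]
    obtain ⟨d1, d2, d3, -, d5, -⟩ := z5 hzU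
    have k1 := sp_one hX h0 h1 d1 d2 d3 d5 t
    have k2 := mt_nonneg g G t z
    have k3 : 0 ≤ h * (1 - h) * mt g G t z :=
      mul_nonneg (mul_nonneg h0 (by linarith)) k2
    linarith

theorem Sa_key (hX : Npc X gm) {S : Set (ℝ × ℝ)} (hS : IsCompact S)
    {g G : ℝ × ℝ → X} (hg : Clx A B C g) (hG : Clx A B C G) {h : ℝ} (h0 : 0 ≤ h) (h1 : h ≤ 1)
    {q : ℝ × ℝ → ℝ} {t : ℝ × ℝ} (hqi : IntegrableOn q (S ∩ U))
    (hp : ∀ᵐ z ∂(volume : Measure (ℝ × ℝ)), z ∈ U → sp (ip gm g G (fun _ => h)) t z ^ 2 ≤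
      (1 - h) * sp g t z ^ 2 + h * sp G t z ^ 2 - h * (1 - h) * S.indicator q z) :
    ∫ z in U, sp (ip gm g G (fun _ => h)) t z ^ 2 ≤
      (1 - h) * (∫ z in U, sp g t z ^ 2) + h * (∫ z in U, sp G t z ^ 2)
        - h * (1 - h) * ∫ z in S ∩ U, q z := by
  have hH := cl_const hX h0 h1 hg hG
  have i1 := sp_all_int hX (lpo_mono U_sub hg.lip) hg.fin t
  have i2 := sp_all_int hX (lpo_mono U_sub hG.lip) hG.fin t
  have i3 := sp_all_int hX (lpo_mono U_sub hH.lip) hH.fin t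
  have i4 : IntegrableOn (S.indicator q) U := by
    unfold IntegrableOn
    rw [integrable_indicator_iff hS.measurableSet]
    unfold IntegrableOn
    rw [Measure.restrict_restrict hS.measurableSet]
    exact hqi
  have j1 : IntegrableOn (fun z => (1 - h) * sp g t z ^ 2) U := i1.const_mul _
  have j2 : IntegrableOn (fun z => h * sp G t z ^ 2) U := i2.const_mul _
  have j3 : IntegrableOn (fun z => h * (1 - h) * S.indicator q z) U := i4.const_mul _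
  have i5 : IntegrableOn (fun z => (1 - h) * sp g t z ^ 2 + h * sp G t z ^ 2) U := j1.add j2
  have i6 : IntegrableOn (fun z => (1 - h) * sp g t z ^ 2 + h * sp G t z ^ 2
      - h * (1 - h) * S.indicator q z) U := i5.sub j3
  have k := setIntegral_mono_ae_restrict (μ := volume) (s := U) i3 i6 (by
    filter_upwards [ae_restrict_of_ae hp, ae_restrict_mem U_open.measurableSet] with z hz hzU
    exact hz hzU)
  have e : ∫ z in U, ((1 - h) * sp g t z ^ 2 + h * sp G t z ^ 2 - h * (1 - h) * S.indicator q z) =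
      (1 - h) * (∫ z in U, sp g t z ^ 2) + h * (∫ z in U, sp G t z ^ 2)
        - h * (1 - h) * ∫ z in S ∩ U, q z := by
    rw [integral_sub i5 j3, integral_add j1 j2, integral_const_mul, integral_const_mul,
      integral_const_mul, setIntegral_indicator hS.measurableSet, Set.inter_comm U S]
  rw [← e]
  exact k

theorem s7_a (hX : Npc X gm) {r ep : ℝ} {o : X} {x y : ℝ} {S : Set (ℝ × ℝ)} (hS : IsCompact S) (hSG : S ⊆ Gd r)
    {u w g G : ℝ × ℝ → X} (hu : Lpo u (Gd r)) (hw : Lpo w (Gd r)) (hg : Nr A B C r o x y ep g)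
    (hG : Cl0 A B C r o G) (hgu : ∀ z ∈ S, g z = u z) (hGw : ∀ z ∈ S, G z = w z) {h : ℝ} (h0 : 0 ≤ h) (h1 : h ≤ 1)
    {q : ℝ × ℝ → ℝ × ℝ → ℝ} (hqi : ∀ t ∈ ({f1 x y, f2 x y} : Set (ℝ × ℝ)), IntegrableOn (q t) (S ∩ U))
    (hq : ∀ t ∈ ({f1 x y, f2 x y} : Set (ℝ × ℝ)), ∀ᵐ z ∂(volume : Measure (ℝ × ℝ)), z ∈ S ∩ U →
      sp (ip gm u w (fun _ => h)) t z ^ 2 ≤ (1 - h) * sp u t z ^ 2 + h * sp w t z ^ 2 - h * (1 - h) * q t z) :
    h * (1 - h) * (∫ z in S ∩ U, (q (f1 x y) z + q (f2 x y) z)) ≤ h * Ex x y G - h * Ex x y g + ep := by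
  have m1 : f1 x y ∈ ({f1 x y, f2 x y} : Set (ℝ × ℝ)) := Set.mem_insert _ _
  have m2 : f2 x y ∈ ({f1 x y, f2 x y} : Set (ℝ × ℝ)) := Set.mem_insert_of_mem _ rfl
  have hgC : Clx A B C g := hg.1.cl
  have hH : Cl0 A B C r o (ip gm g G (fun _ => h)) := cl0_const hX h0 h1 hg.1 hG
  have hE : Ex x y g ≤ Ex x y (ip gm g G (fun _ => h)) + ep := by
    have a1 := hg.2
    have a2 := E0_le hH x y
    linarith
  have k1 := Sa_key hX hS hgC hG.cl h0 h1 (hqi _ m1)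
    (s7_pt hX hS hSG hu hw hgC.lip hG.cl.lip hgu hGw h0 h1 (hq _ m1))
  have k2 := Sa_key hX hS hgC hG.cl h0 h1 (hqi _ m2)
    (s7_pt hX hS hSG hu hw hgC.lip hG.cl.lip hgu hGw h0 h1 (hq _ m2))
  have hsum : ∀ f : ℝ × ℝ → X, Clx A B C f →
      Ex x y f = (∫ z in U, sp f (f1 x y) z ^ 2) + ∫ z in U, sp f (f2 x y) z ^ 2 := by
    intro f hf
    unfold Ex
    exact integral_add (sp_all_int hX (lpo_mono U_sub hf.lip) hf.fin _)
      (sp_all_int hX (lpo_mono U_sub hf.lip) hf.fin _)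
  rw [hsum _ hgC, hsum _ hH.cl] at hE
  rw [hsum _ hgC, hsum _ hG.cl, integral_add (hqi _ m1) (hqi _ m2)]
  linarith

end H46NS
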