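import Pool.Agent.H80.NA.Si
import Pool.Agent.H80.NA.Ske
import Pool.Agent.H46.XB.Vf

set_option autoImplicit false

/-!
ROW Sb (MP_b319aa_NA, S7: the trace free part off S).
PROOF. `s7_cc_pt`: a.e. (`cc_rot` for `g` and `G`, `Ske.lean`; `e2_frame`): with `a = sp g fe`, `A = sp G fe`, `b = sp g ff`, `B = sp G ff`: `cc G - cc g = (A^2 - a^2) - (B^2 - b^2)`, `|A^2 - a^2| = |A - a| |A + a| ≤ (A - a)^2 + 2 a |A - a| ≤ (1 + lam) (A - a)^2 + a^2 / lam`
(`sp_nonneg`), same for `b`; `a^2 + b^2 = e2 x y g`. `s7_cc`: integrate over `U \ S` (`cc_int`, `sp_all_int`, `e2_int`; monotonicity: the first term is extended to `U`), `near_two_sp` (`Vf.lean`) with `th = th' = th4 k`, `hk = ex_tau_hk`: `∫_U ((sp g fe - sp G fe)^2 + (..)^2) ≤ 150 (E0 + 1) s^2`.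
(integrability of the squares of differences: `≤ 2 a^2 + 2 A^2`, measurability from `sp_meas`; or use `mt_int` and `integral_mono_of_nonneg`: `(a - A)^2 ≤ mt`: use `near_two` instead of `near_two_sp`.)
-/

namespace H46NS

open H50NA H98NX H46XB MeasureTheory Set Filter Topology
open H80HM (D U P f1 f2)

variable {X : Type} [MetricSpace X] {gm : X → X → ℝ → X} {A B C : X ≃ᵢ X}

private theorem Sb_sq (a b : ℝ) {lam : ℝ} (hl : 0 < lam) :
    |b ^ 2 - a ^ 2| ≤ (1 + lam) * (a - b) ^ 2 + 1 / lam * a ^ 2 := by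
  have h1 : (1 + lam) * (a - b) ^ 2 + 1 / lam * a ^ 2 - (b ^ 2 - a ^ 2) = 1 / lam * (lam * (b - a) - a) ^ 2 := by
    field_simp
    ring
  have h2 : (1 + lam) * (a - b) ^ 2 + 1 / lam * a ^ 2 + (b ^ 2 - a ^ 2) =
      2 * (b - a) ^ 2 + 1 / lam * (lam * (b - a) + a) ^ 2 := by
    field_simp
    ring
  have h3 : 0 ≤ 1 / lam * (lam * (b - a) - a) ^ 2 := by positivity
  have h4 : 0 ≤ 2 * (b - a) ^ 2 + 1 / lam * (lam * (b - a) + a) ^ 2 := by positivity
  rw [abs_le]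
  constructor <;> linarith

theorem s7_cc_pt (hX : Npc X gm) {f g : ℝ × ℝ → X} (hf : Clx A B C f) (hg : Clx A B C g) (x : ℝ) {y : ℝ} (hy : 0 < y)
    (k : Fin 4) {lam : ℝ} (hl : 0 < lam) :
    ∀ᵐ z ∂(volume : Measure (ℝ × ℝ)), z ∈ U → |cc k x y g z - cc k x y f z| ≤
      (1 + lam) * (mt f g (fe x y (th4 k)) z + mt f g (ff x y (th4 k)) z) + (1 / lam) * e2 x y f z := by
  filter_upwards [cc_rot hX (clx_lpo hf) x hy k, cc_rot hX (clx_lpo hg) x hy k,
    e2_frame hX (clx_lpo hf) x y (th4 k)] with z h1 h2 h3 hzU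
  rw [h1 hzU, h2 hzU, ← h3 hzU]
  have a1 := Sb_sq (sp f (fe x y (th4 k)) z) (sp g (fe x y (th4 k)) z) hl
  have a2 := Sb_sq (sp f (ff x y (th4 k)) z) (sp g (ff x y (th4 k)) z) hl
  have m1 : (sp f (fe x y (th4 k)) z - sp g (fe x y (th4 k)) z) ^ 2 ≤ mt f g (fe x y (th4 k)) z := le_max_left _ _
  have m2 : (sp f (ff x y (th4 k)) z - sp g (ff x y (th4 k)) z) ^ 2 ≤ mt f g (ff x y (th4 k)) z := le_max_left _ _
  have n1 := mul_le_mul_of_nonneg_left m1 (show 0 ≤ 1 + lam by linarith)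
  have n2 := mul_le_mul_of_nonneg_left m2 (show 0 ≤ 1 + lam by linarith)
  rw [abs_le] at a1 a2 ⊢
  obtain ⟨a3, a4⟩ := a1
  obtain ⟨a5, a6⟩ := a2
  constructor
  · linarith
  · linarith

/-- `f` near-minimiser at the centre, `g` at the point `tau_k(s)` -/
theorem s7_cc (hX : Npc X gm) {f g : ℝ × ℝ → X} {r ep s : ℝ} {o : X} {x y : ℝ} (hy : 0 < y) (hs0 : 0 ≤ s) (hs1 : s ≤ 1)
    (hep : ep ≤ s ^ 2) (hep1 : ep ≤ 1) (k : Fin 4) (hf : Nr A B C r o x y ep f)
    (hg : Nr A B C r o (tx x y s k) (ty y s k) ep g) {S : Set (ℝ × ℝ)} (hS : MeasurableSet S) {lam : ℝ} (hl : 0 < lam) :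
    |∫ z in U \ S, (cc k x y g z - cc k x y f z)| ≤
      (1 + lam) * (150 * (E0 A B C r o x y + 1) * s ^ 2) + (1 / lam) * ∫ z in U \ S, e2 x y f z := by
  have hfC := hf.1.cl
  have hgC := hg.1.cl
  have hU : MeasurableSet (U : Set (ℝ × ℝ)) := H46XB.Vb_open.measurableSet
  have hn := near_two hX hs0 hs1 hep hep1 (fun h hh => ex_tau_hk hX hh x hy s k) hf hg (th4 k)
  have iM : IntegrableOn (fun z => mt f g (fe x y (th4 k)) z + mt f g (ff x y (th4 k)) z) U :=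
    (mt_int hX hfC hgC _).add (mt_int hX hfC hgC _)
  have ie : IntegrableOn (e2 x y f) U := H46XB.e2_int hX (clx_lpo hfC) hfC.fin x y
  have iM' : IntegrableOn (fun z => mt f g (fe x y (th4 k)) z + mt f g (ff x y (th4 k)) z) (U \ S) :=
    iM.mono_set sdiff_subset
  have ie' : IntegrableOn (e2 x y f) (U \ S) := ie.mono_set sdiff_subset
  have h1 : |∫ z in U \ S, (cc k x y g z - cc k x y f z)| ≤
      ∫ z in U \ S, ((1 + lam) * (mt f g (fe x y (th4 k)) z + mt f g (ff x y (th4 k)) z) +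
        (1 / lam) * e2 x y f z) := by
    rw [← Real.norm_eq_abs]
    refine norm_integral_le_of_norm_le ((iM'.const_mul _).add (ie'.const_mul _)) ?_
    rw [ae_restrict_iff' (hU.diff hS)]
    filter_upwards [s7_cc_pt hX hfC hgC x hy k hl] with z hz hzU
    exact hz hzU.1
  rw [integral_add (iM'.const_mul _) (ie'.const_mul _), integral_const_mul, integral_const_mul] at h1
  have h2 : ∫ z in U \ S, (mt f g (fe x y (th4 k)) z + mt f g (ff x y (th4 k)) z) ≤
      ∫ z in U, (mt f g (fe x y (th4 k)) z + mt f g (ff x y (th4 k)) z) :=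
    setIntegral_mono_set iM (Eventually.of_forall fun z => add_nonneg (mt_nonneg f g _ z) (mt_nonneg f g _ z))
      (Eventually.of_forall fun z hz => hz.1)
  have h3 := mul_le_mul_of_nonneg_left (h2.trans hn) (show 0 ≤ 1 + lam by linarith)
  linarith

end H46NS
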