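import Pool.Agent.H80.NA.Si
import Pool.Agent.H80.NA.Ske
import Pool.Agent.H46.XB.Vf

/-!
ROW Sc (MP_b319aa_NA, S7: the term with J).
PROOF. `fd_cmp'`: `f1 x y = √y (1,0)`, `f2 x y = -(x/√y) (1,0) + (1/√y) (0,1)`: `L (f1)^2 = y L(1,0)^2`, `L (f2)^2 ≤ 2 x^2/y L(1,0)^2 + 2/y L(0,1)^2` (model: `fd_cmp` in `XB/Vb.lean`).
`s7_young`: `|p| |v| ≤ (p^2 δ^2 / mu + mu R) / 2`, because `p^2 v^2 ≤ (p^2 δ^2) R ≤ ((p^2 δ^2 / mu + mu R)/2)^2`.
`s7_cap`: `q = dd f g` is `Lpo` on `D \ P` (`lpo_dist`), `0` on `Zr r` (`Cl0.eq`, `dist_self`), `q^2` integrable (`dist_le`), `gr q` integrable (`grad_dd`; `gr q z = sp q (1,0) z ^2 + sp q (0,1) z ^2`): `hc` and `near_two_dist`, `grad_dd`, `near_two` (`th' = 0`, `frame_zero`), `hk = ex_tau_hk`.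
`s7_d`: `pw4`, then `integral_mono_of_nonneg`: a.e. on `S ∩ U` (`l` differentiable a.e.: `diff_ae` of `SB/Hd.lean` or Rademacher `LipschitzWith.ae_differentiableAt`; `gr_eq` of `SB/Hy.lean`; `pw3`, `qnn`): with `δ = (dist (u z) (w 0 z) + dist (u z) (w 2 z)) / 2`, `mu = √e`:
`|fderiv l f1| |om f2| + |fderiv l f2| |om f1| ≤ (1 / (2 mu)) (fderiv l f1 ^2 + fderiv l f2 ^2) δ^2 + (mu / 4) ((Q 1 f1 + Q 3 f1) + (Q 1 f2 + Q 3 f2))` (`s7_young`), `δ^2 ≤ (d0^2 + d2^2)/2`, `d_k = dist (g z) (G k z)` on `S`, `fderiv l f1 ^2 + fderiv l f2 ^2 ≤ kap' x y * gr l z`.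
Integrate over `S ∩ U` (`⊆ U`, `gr l * d_k^2` integrable and `≥ 0`).
-/

set_option autoImplicit false

namespace H46NS

open H50NA H98NX H46XB MeasureTheory Set Filter Topology
open H80HM (D U P f1 f2)
open H46SB (gr)
open scoped NNReal

variable {X : Type} [MetricSpace X] {gm : X → X → ℝ → X} {A B C : X ≃ᵢ X}

theorem fd_cmp' (L : ℝ × ℝ →L[ℝ] ℝ) (x : ℝ) {y : ℝ} (hy : 0 < y) :
    L (f1 x y) ^ 2 + L (f2 x y) ^ 2 ≤ kap' x y * (L (1, 0) ^ 2 + L (0, 1) ^ 2) := by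
  have hr : Real.sqrt y ^ 2 = y := Real.sq_sqrt hy.le
  have hr0 : 0 < Real.sqrt y := Real.sqrt_pos.2 hy
  have g1 : f1 x y = Real.sqrt y • ((1, 0) : ℝ × ℝ) := by
    unfold f1
    ext
    · simp
    · simp
  have g2 : f2 x y = (1 / Real.sqrt y) • ((0, 1) : ℝ × ℝ) + (-x / Real.sqrt y) • ((1, 0) : ℝ × ℝ) := by
    unfold f2
    ext
    · simp
    · simp
  rw [g1, g2, map_add, map_smul, map_smul, map_smul, smul_eq_mul, smul_eq_mul, smul_eq_mul]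
  generalize L (1, 0) = u
  generalize L (0, 1) = v
  have h1 : (Real.sqrt y * u) ^ 2 = y * u ^ 2 := by
    rw [mul_pow, hr]
  have h2 : (1 / Real.sqrt y * v + -x / Real.sqrt y * u) ^ 2 ≤
      2 * (1 / Real.sqrt y * v) ^ 2 + 2 * (-x / Real.sqrt y * u) ^ 2 := by
    nlinarith [sq_nonneg (1 / Real.sqrt y * v - -x / Real.sqrt y * u)]
  have h3 : 2 * (1 / Real.sqrt y * v) ^ 2 + 2 * (-x / Real.sqrt y * u) ^ 2 =
      2 / y * v ^ 2 + 2 * x ^ 2 / y * u ^ 2 := by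
    rw [mul_pow, mul_pow, div_pow, div_pow, hr]
    ring
  rw [h3] at h2
  rw [h1]
  have e8 : kap' x y * (u ^ 2 + v ^ 2) = (y * u ^ 2 + (2 / y * v ^ 2 + 2 * x ^ 2 / y * u ^ 2)) +
      (2 / y * u ^ 2 + y * v ^ 2 + 2 * x ^ 2 / y * v ^ 2) := by
    unfold kap'
    ring
  rw [e8]
  have e9 : 0 ≤ 2 / y * u ^ 2 + y * v ^ 2 + 2 * x ^ 2 / y * v ^ 2 := by positivity
  linarith

theorem s7_young {p v d R mu : ℝ} (hmu : 0 < mu) (h : v ^ 2 ≤ d ^ 2 * R) (hR : 0 ≤ R) :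
    |p| * |v| ≤ 1 / (2 * mu) * (p ^ 2 * d ^ 2) + mu / 2 * R := by
  have h1 : 0 ≤ p ^ 2 * d ^ 2 := by positivity
  have h2 : (|p| * |v|) ^ 2 ≤ (1 / (2 * mu) * (p ^ 2 * d ^ 2) + mu / 2 * R) ^ 2 := by
    have h3 : (|p| * |v|) ^ 2 = p ^ 2 * v ^ 2 := by rw [mul_pow, sq_abs, sq_abs]
    have h4 : p ^ 2 * v ^ 2 ≤ p ^ 2 * (d ^ 2 * R) := mul_le_mul_of_nonneg_left h (sq_nonneg p)
    have h5 : (1 / (2 * mu) * (p ^ 2 * d ^ 2) + mu / 2 * R) ^ 2 - p ^ 2 * (d ^ 2 * R) =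
        (1 / (2 * mu) * (p ^ 2 * d ^ 2) - mu / 2 * R) ^ 2 := by
      field_simp
      ring
    have h6 : 0 ≤ (1 / (2 * mu) * (p ^ 2 * d ^ 2) - mu / 2 * R) ^ 2 := sq_nonneg _
    linarith
  have h3 : 0 ≤ 1 / (2 * mu) * (p ^ 2 * d ^ 2) + mu / 2 * R := by positivity
  exact le_of_sq_le_sq h2 h3

theorem s7_cap (hX : Npc X gm) {f g : ℝ × ℝ → X} {r ep s e : ℝ} {o : X} {x y : ℝ} (hr : 0 < r) (hr8 : r < 1 / 8)
    (hy : 0 < y) (hs0 : 0 ≤ s) (hs1 : s ≤ 1) (hep : ep ≤ s ^ 2) (hep1 : ep ≤ 1) (he : 0 ≤ e) (k : Fin 4)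
    (hf : Nr A B C r o x y ep f) (hg : Nr A B C r o (tx x y s k) (ty y s k) ep g) {m l : ℝ × ℝ → ℝ}
    {S : Set (ℝ × ℝ)} (hl : CutL r e m l S) :
    IntegrableOn (fun z => gr l z * dist (f z) (g z) ^ 2) U ∧ ∫ z in U, gr l z * dist (f z) (g z) ^ 2 ≤
      e * (((1 / (2 * r) + 1 / 2) * kap x y + kap x y) * (150 * (E0 A B C r o x y + 1)) * s ^ 2) := by
  have hr4 : r < 1 / 4 := by linarith
  have hk : ∀ h : ℝ × ℝ → X, Clx A B C h → Ex (tx x y s k) (ty y s k) h =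
      ∫ z in U, (Real.exp s * sp h (fe x y (th4 k)) z ^ 2 + Real.exp (-s) * sp h (ff x y (th4 k)) z ^ 2) :=
    fun h hh => ex_tau_hk hX hh x hy s k
  have hqD : Lpo (dd f g) (D \ P) := lpo_dist hf.1.cl.lip hg.1.cl.lip
  obtain ⟨i1, -⟩ := dist_le hX hr hr4 hf.1 hg.1 x hy
  obtain ⟨i2, j2⟩ := grad_dd hX hf.1.cl hg.1.cl x hy
  have n1 := near_two_dist hX hr hr4 hy hs0 hs1 hep hep1 hk hf hg
  have n2 := near_two hX hs0 hs1 hep hep1 hk hf hg 0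
  rw [(frame_zero x y).1, (frame_zero x y).2] at n2
  have hkap : 0 ≤ kap x y := by
    unfold kap
    positivity
  have i1' : IntegrableOn (fun z => dd f g z ^ 2) U := i1
  have i2' : IntegrableOn (gr (dd f g)) U := i2
  obtain ⟨c1, c2⟩ := hl.cap (dd f g) hqD (fun z hz => by
    unfold dd
    rw [hf.1.eq z hz, hg.1.eq z hz, dist_self]) i1' i2'
  refine ⟨c1, c2.trans (mul_le_mul_of_nonneg_left ?_ he)⟩
  rw [integral_add i1' i2']
  have n3 : ∫ z in U, gr (dd f g) z ≤ kap x y * (150 * (E0 A B C r o x y + 1) * s ^ 2) :=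
    j2.trans (mul_le_mul_of_nonneg_left n2 hkap)
  have n4 : ∫ z in U, dd f g z ^ 2 ≤
      (1 / (2 * r) + 1 / 2) * kap x y * (150 * (E0 A B C r o x y + 1)) * s ^ 2 := n1
  calc _ ≤ (1 / (2 * r) + 1 / 2) * kap x y * (150 * (E0 A B C r o x y + 1)) * s ^ 2 +
        kap x y * (150 * (E0 A B C r o x y + 1) * s ^ 2) := add_le_add n4 n3
    _ = _ := by ring

theorem s7_d {r e s : ℝ} {x y : ℝ} (hy : 0 < y) (he : 0 < e) {m l : ℝ × ℝ → ℝ} {S : Set (ℝ × ℝ)}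
    (hl : CutL r e m l S) {u g : ℝ × ℝ → X} {w G : Fin 4 → ℝ × ℝ → X} {Q : Fin 4 → ℝ × ℝ → ℝ × ℝ → ℝ} {J : ℝ × ℝ → ℝ}
    {om : ℝ × ℝ → ℝ × ℝ → ℝ} (pw : PW gm l S x y s u w Q J om) (hgu : ∀ z ∈ S, g z = u z)
    (hGw : ∀ k, ∀ z ∈ S, G k z = w k z)
    (hi : ∀ k, IntegrableOn (fun z => gr l z * dist (g z) (G k z) ^ 2) U) {c : ℝ}
    (hc : ∀ k, ∫ z in U, gr l z * dist (g z) (G k z) ^ 2 ≤ e * c) :
    |∫ z in S ∩ U, l z * J z| ≤ √e * (kap' x y * c / 2 + (1 / 4) *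
      ((∫ z in S ∩ U, (Q 1 (f1 x y) z + Q 1 (f2 x y) z)) + ∫ z in S ∩ U, (Q 3 (f1 x y) z + Q 3 (f2 x y) z))) := by
  have hSU : MeasurableSet (S ∩ U) := hl.cpt.isClosed.measurableSet.inter Vb_open.measurableSet
  have hsub : S ∩ U ⊆ U := inter_subset_right
  have hmu : 0 < √e := Real.sqrt_pos.2 he
  have hmu2 : √e ^ 2 = e := Real.sq_sqrt he.le
  have m1 : f1 x y ∈ ({f1 x y, f2 x y} : Set (ℝ × ℝ)) := Or.inl rfl
  have m2 : f2 x y ∈ ({f1 x y, f2 x y} : Set (ℝ × ℝ)) := Or.inr rfl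
  have hkap : 0 ≤ kap' x y := by
    unfold kap'
    positivity
  obtain ⟨K, hK⟩ := hl.lip
  have hdiff : ∀ᵐ z ∂(volume : Measure (ℝ × ℝ)), DifferentiableAt ℝ l z := hK.ae_differentiableAt
  have hgr0 : ∀ z, 0 ≤ gr l z := fun z => add_nonneg (sq_nonneg _) (sq_nonneg _)
  -- the majorant
  have q1 : IntegrableOn (fun z => Q 1 (f1 x y) z + Q 1 (f2 x y) z) (S ∩ U) :=
    (pw.qint 1 _ m1).add (pw.qint 1 _ m2)
  have q3 : IntegrableOn (fun z => Q 3 (f1 x y) z + Q 3 (f2 x y) z) (S ∩ U) :=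
    (pw.qint 3 _ m1).add (pw.qint 3 _ m2)
  have d0 : IntegrableOn (fun z => gr l z * dist (g z) (G 0 z) ^ 2) (S ∩ U) := (hi 0).mono_set hsub
  have d2 : IntegrableOn (fun z => gr l z * dist (g z) (G 2 z) ^ 2) (S ∩ U) := (hi 2).mono_set hsub
  have dsum : IntegrableOn (fun z => kap' x y / (4 * √e) *
      (gr l z * dist (g z) (G 0 z) ^ 2 + gr l z * dist (g z) (G 2 z) ^ 2)) (S ∩ U) :=
    (d0.add d2).const_mul _
  have qsum : IntegrableOn (fun z => √e / 4 * ((Q 1 (f1 x y) z + Q 1 (f2 x y) z) +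
      (Q 3 (f1 x y) z + Q 3 (f2 x y) z))) (S ∩ U) := (q1.add q3).const_mul _
  refine pw.pw4.trans ?_
  have hmain : ∫ z in S ∩ U, (|fderiv ℝ l z (f1 x y)| * |om (f2 x y) z| +
      |fderiv ℝ l z (f2 x y)| * |om (f1 x y) z|) ≤
      ∫ z in S ∩ U, (kap' x y / (4 * √e) *
        (gr l z * dist (g z) (G 0 z) ^ 2 + gr l z * dist (g z) (G 2 z) ^ 2) +
        √e / 4 * ((Q 1 (f1 x y) z + Q 1 (f2 x y) z) + (Q 3 (f1 x y) z + Q 3 (f2 x y) z))) := by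
    refine integral_mono_of_nonneg (Eventually.of_forall fun z => by positivity) (dsum.add qsum) ?_
    rw [EventuallyLE, ae_restrict_iff' hSU]
    filter_upwards [hdiff, pw.pw3 _ m1, pw.pw3 _ m2, pw.qnn 1 _ m1, pw.qnn 1 _ m2, pw.qnn 3 _ m1,
      pw.qnn 3 _ m2] with z hd h1 h2 a1 a2 b1 b2 hz
    have h1 := h1 hz
    have h2 := h2 hz
    have a1 := a1 hz
    have a2 := a2 hz
    have b1 := b1 hz
    have b2 := b2 hz
    have y1 := s7_young (p := fderiv ℝ l z (f1 x y)) hmu h2 (by positivity)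
    have y2 := s7_young (p := fderiv ℝ l z (f2 x y)) hmu h1 (by positivity)
    have hc1 := fd_cmp' (fderiv ℝ l z) x hy
    rw [← H46SB.gr_eq hd] at hc1
    rw [hgu z hz.1, hGw 0 z hz.1, hGw 2 z hz.1]
    have hg0 := hgr0 z
    generalize dist (u z) (w 0 z) = p at y1 y2 ⊢
    generalize dist (u z) (w 2 z) = q at y1 y2 ⊢
    generalize fderiv ℝ l z (f1 x y) = A1 at y1 y2 hc1 ⊢
    generalize fderiv ℝ l z (f2 x y) = A2 at y1 y2 hc1 ⊢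
    have e1 : 1 / (2 * √e) * (A1 ^ 2 * ((p + q) / 2) ^ 2) + 1 / (2 * √e) * (A2 ^ 2 * ((p + q) / 2) ^ 2) ≤
        kap' x y / (4 * √e) * (gr l z * p ^ 2 + gr l z * q ^ 2) := by
      have e2 : (A1 ^ 2 + A2 ^ 2) * ((p + q) / 2) ^ 2 ≤ (kap' x y * gr l z) * ((p ^ 2 + q ^ 2) / 2) := by
        refine mul_le_mul hc1 ?_ (sq_nonneg _) (mul_nonneg hkap hg0)
        nlinarith [sq_nonneg (p - q)]
      have e3 : 0 ≤ 1 / (2 * √e) := by positivity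
      have e4 := mul_le_mul_of_nonneg_left e2 e3
      have e5 : 1 / (2 * √e) * ((A1 ^ 2 + A2 ^ 2) * ((p + q) / 2) ^ 2) =
          1 / (2 * √e) * (A1 ^ 2 * ((p + q) / 2) ^ 2) + 1 / (2 * √e) * (A2 ^ 2 * ((p + q) / 2) ^ 2) := by
        ring
      have e6 : 1 / (2 * √e) * (kap' x y * gr l z * ((p ^ 2 + q ^ 2) / 2)) =
          kap' x y / (4 * √e) * (gr l z * p ^ 2 + gr l z * q ^ 2) := by
        field_simp
        ring
      rw [e5, e6] at e4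
      exact e4
    linarith
  refine hmain.trans ?_
  rw [integral_add dsum qsum, integral_const_mul, integral_const_mul, integral_add d0 d2,
    integral_add q1 q3]
  have s0 : ∫ z in S ∩ U, gr l z * dist (g z) (G 0 z) ^ 2 ≤ e * c :=
    (setIntegral_mono_set (hi 0) (Eventually.of_forall fun z => mul_nonneg (hgr0 z) (sq_nonneg _))
      (Eventually.of_forall hsub)).trans (hc 0)
  have s2 : ∫ z in S ∩ U, gr l z * dist (g z) (G 2 z) ^ 2 ≤ e * c :=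
    (setIntegral_mono_set (hi 2) (Eventually.of_forall fun z => mul_nonneg (hgr0 z) (sq_nonneg _))
      (Eventually.of_forall hsub)).trans (hc 2)
  have hk4 : 0 ≤ kap' x y / (4 * √e) := by positivity
  have e7 : kap' x y / (4 * √e) * (e * c + e * c) = √e * (kap' x y * c / 2) := by
    have e9 : kap' x y / (4 * √e) * (e * c + e * c) = (e / √e) * (kap' x y * c / 2) := by
      field_simp
      ring
    rw [e9, Real.div_sqrt]
  have e8 := mul_le_mul_of_nonneg_left (add_le_add s0 s2) hk4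
  rw [e7] at e8
  refine (add_le_add_left e8 _).trans (le_of_eq ?_)
  ring

end H46NS
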