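import Mathlib

/-!
ROW Sd (MP_b319aa_NA, S7: arithmetic).
PROOF. `ex_le`: `Real.exp_bound_div_one_sub_of_interval` or `exp s ≤ 1/(1-s)` (from `1 - s ≤ exp (-s)`), `1 ≤ (1 + 2 s)(1 - s)` for `0 ≤ s ≤ 1/2`. `ch_le`: `Real.cosh_le_exp_half_sq`, `ex_le`. `ch_ge`: `cosh s = 1 + 2 sinh (s/2)^2` (`Real.cosh_two_mul`, `Real.cosh_sq`), `sinh (s/2) ≥ s/2` (`Real.self_le_sinh_iff`).
`sh_le`: `sinh s ≤ s cosh s` (mean value inequality, model `Vf_sinh` in `XB/Vf.lean`). `sh_le2`: `cosh s ≤ 2`. `key_le`: `2 exp s sinh^2 s ≤ 2 s^2 (1 + 2 s)(1 + s^2)^2 ≤ 2 s^2 (1 + 2s)(1 + 3 s^2) ≤ 2 s^2 (1 + 5 s)`.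
`s7_arith`: (1) `(1 - s^3) ≥ 7/8`: `Iq k ≤ 88 (E+1) s^2`. (2) `EG k ≥ Eg + Iq k - 89 (E+1) s^3`. (3) `∑ Ek ≥ 4 cosh s Eg + ∑ (cosh s Iq k + sinh s CS k) + sinh s ∑ CO k - 4 cosh s 89 (E+1) s^3 - 4 s^6 ≥ 4 cosh s Eg - 4 exp(-s) LJ - 2 exp s sinh^2 s (Eg + e) - 4 sinh s err - 712 (E+1) s^3 - 4 s^3`.
(4) `4 cosh s - 2 exp s sinh^2 s ≥ 4 - 10 s^3` (`ch_ge`, `key_le`), `E ≤ Eg ≤ E + 1`. (5) `exp (-s) ≤ 1`, `|LJ| ≤ K √e s^2`. (6) `2 exp s sinh^2 s e ≤ 7 s^2 √e` (`e ≤ √e`). (7) `4 sinh s err ≤ 8 s (150 (E+1) s^2 + 151 (E+1) s (√e + s^3)) ≤ 2408 (E+1) s^3 + 1208 (E+1) √e s^2`.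
-/

set_option autoImplicit false

namespace H46NS

theorem ex_le {s : ℝ} (h0 : 0 ≤ s) (h1 : s ≤ 1 / 2) : Real.exp s ≤ 1 + 2 * s := by
  have h2 : 1 - s ≤ Real.exp (-s) := by
    have := Real.add_one_le_exp (-s)
    linarith
  have h3 : Real.exp s * Real.exp (-s) = 1 := by
    rw [← Real.exp_add, add_neg_cancel, Real.exp_zero]
  have h4 := Real.exp_pos s
  have h5 : Real.exp s * (1 - s) ≤ Real.exp s * Real.exp (-s) :=
    mul_le_mul_of_nonneg_left h2 h4.le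
  rw [h3] at h5
  have h6 : 1 ≤ (1 + 2 * s) * (1 - s) := by nlinarith
  have h7 : 0 < 1 - s := by linarith
  have h8 : Real.exp s * (1 - s) ≤ (1 + 2 * s) * (1 - s) := h5.trans h6
  exact le_of_mul_le_mul_right h8 h7

theorem ch_le {s : ℝ} (h0 : 0 ≤ s) (h1 : s ≤ 1 / 2) : Real.cosh s ≤ 1 + s ^ 2 := by
  have h2 := Real.cosh_le_exp_half_sq s
  have h3 : s ^ 2 / 2 ≤ 1 / 2 := by nlinarith
  have h4 := ex_le (by positivity : 0 ≤ s ^ 2 / 2) h3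
  linarith

theorem ch_ge (s : ℝ) : 1 + s ^ 2 / 2 ≤ Real.cosh s := by
  have h1 : Real.cosh s = 1 + 2 * Real.sinh (s / 2) ^ 2 := by
    have h2 := Real.cosh_two_mul (s / 2)
    have h3 := Real.cosh_sq (s / 2)
    have h4 : 2 * (s / 2) = s := by ring
    rw [h4, h3] at h2
    linarith
  have h2 : (s / 2) ^ 2 ≤ Real.sinh (s / 2) ^ 2 := by
    rcases le_total 0 (s / 2) with h3 | h3
    · have h4 := Real.self_le_sinh_iff.2 h3
      exact pow_le_pow_left₀ h3 h4 2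
    · have h4 := Real.self_le_sinh_iff.2 (neg_nonneg.2 h3)
      rw [Real.sinh_neg] at h4
      nlinarith
  rw [h1]
  nlinarith

theorem sh_le {s : ℝ} (h0 : 0 ≤ s) : Real.sinh s ≤ s * Real.cosh s := by
  have hder : ∀ x : ℝ, HasDerivAt (fun x : ℝ => x * Real.cosh x - Real.sinh x) (x * Real.sinh x) x := by
    intro x
    have h1 : HasDerivAt (fun x : ℝ => x * Real.cosh x - Real.sinh x)
        (1 * Real.cosh x + x * Real.sinh x - Real.cosh x) x :=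
      ((hasDerivAt_id x).mul (Real.hasDerivAt_cosh x)).sub (Real.hasDerivAt_sinh x)
    have h2 : 1 * Real.cosh x + x * Real.sinh x - Real.cosh x = x * Real.sinh x := by ring
    rw [h2] at h1
    exact h1
  have hmono : MonotoneOn (fun x : ℝ => x * Real.cosh x - Real.sinh x) (Set.Ici 0) := by
    apply monotoneOn_of_deriv_nonneg (convex_Ici 0)
    · exact fun x _ => (hder x).continuousAt.continuousWithinAt
    · exact fun x _ => (hder x).differentiableAt.differentiableWithinAt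
    · intro x hx
      rw [interior_Ici, Set.mem_Ioi] at hx
      rw [(hder x).deriv]
      exact mul_nonneg hx.le (Real.sinh_nonneg_iff.2 hx.le)
  have h1 := hmono (Set.mem_Ici.2 le_rfl) (Set.mem_Ici.2 h0) h0
  simp only [zero_mul, Real.sinh_zero, sub_zero] at h1
  linarith

theorem sh_le2 {s : ℝ} (h0 : 0 ≤ s) (h1 : s ≤ 1 / 2) : Real.sinh s ≤ 2 * s := by
  have h2 := sh_le h0
  have h3 := ch_le h0 h1
  nlinarith

theorem key_le {s : ℝ} (h0 : 0 ≤ s) (h1 : s ≤ 1 / 2) : 2 * Real.exp s * Real.sinh s ^ 2 ≤ 2 * s ^ 2 + 10 * s ^ 3 := by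
  have h2 := ex_le h0 h1
  have h3 : Real.sinh s ≤ s * (1 + s ^ 2) :=
    (sh_le h0).trans (mul_le_mul_of_nonneg_left (ch_le h0 h1) h0)
  have h4 : 0 ≤ Real.sinh s := Real.sinh_nonneg_iff.2 h0
  have h5 : Real.sinh s ^ 2 ≤ (s * (1 + s ^ 2)) ^ 2 := pow_le_pow_left₀ h4 h3 2
  have h6 : (1 + s ^ 2) ^ 2 ≤ 1 + 3 * s ^ 2 := by
    have h7 : s ^ 2 ≤ 1 := by nlinarith
    nlinarith [sq_nonneg s]
  have h7 : (1 + 2 * s) * (1 + 3 * s ^ 2) ≤ 1 + 5 * s := by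
    have h8 : s ^ 2 ≤ 1 / 2 * s := by nlinarith
    nlinarith
  have h8 : Real.exp s * Real.sinh s ^ 2 ≤ (1 + 2 * s) * (s ^ 2 * (1 + 3 * s ^ 2)) := by
    apply mul_le_mul h2 _ (sq_nonneg _) (by linarith)
    calc Real.sinh s ^ 2 ≤ (s * (1 + s ^ 2)) ^ 2 := h5
      _ = s ^ 2 * (1 + s ^ 2) ^ 2 := by ring
      _ ≤ s ^ 2 * (1 + 3 * s ^ 2) := mul_le_mul_of_nonneg_left h6 (sq_nonneg s)
  have h9 : s ^ 2 * ((1 + 2 * s) * (1 + 3 * s ^ 2)) ≤ s ^ 2 * (1 + 5 * s) :=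
    mul_le_mul_of_nonneg_left h7 (sq_nonneg s)
  nlinarith

theorem s7_arith {E Eg e s LJ K : ℝ} {EG Iq CS CO Ek : Fin 4 → ℝ} (hE : 0 ≤ E) (he : 0 < e) (he1 : e ≤ 1) (hs : 0 < s)
    (hs1 : s ≤ 1 / 2) (hK : 0 ≤ K) (h1 : E ≤ Eg) (h2 : Eg ≤ E + s ^ 6) (hq : ∀ k, 0 ≤ Iq k)
    (ha : ∀ k, Eg + (1 - s ^ 3) * Iq k ≤ EG k + s ^ 3) (hn : ∀ k, EG k ≤ Eg + 75 * (E + 1) * s ^ 2)
    (hk : ∀ k, Real.cosh s * EG k + Real.sinh s * (CS k + CO k) - s ^ 6 ≤ Ek k)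
    (ho : -(4 * (150 * (E + 1) * s ^ 2 + 151 * (E + 1) * s * (√e + s ^ 3))) ≤ ∑ k, CO k)
    (hp : -(4 * Real.exp (-s) * LJ) - 2 * Real.exp s * Real.sinh s ^ 2 * (Eg + e) ≤
      ∑ k, (Real.cosh s * Iq k + Real.sinh s * CS k)) (hL : |LJ| ≤ K * √e * s ^ 2) :
    4 * E - (4 * K + 5000 * (E + 1)) * √e * s ^ 2 - (4 * K + 5000 * (E + 1)) * s ^ 3 ≤ ∑ k, Ek k := by
  have hs2 : s ^ 2 ≤ 1 / 4 := by nlinarith
  have hs20 : 0 ≤ s ^ 2 := sq_nonneg s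
  have hs3 : s ^ 3 ≤ 1 / 8 := by
    calc s ^ 3 = s ^ 2 * s := by ring
      _ ≤ 1 / 4 * (1 / 2) := mul_le_mul hs2 hs1 hs.le (by norm_num)
      _ = 1 / 8 := by norm_num
  have hs30 : 0 ≤ s ^ 3 := by positivity
  have hA : 1 ≤ E + 1 := by linarith
  have hA0 : 0 ≤ E + 1 := by linarith
  have hch1 := ch_ge s
  have hch2 := ch_le hs.le hs1
  have hsh0 : 0 ≤ Real.sinh s := Real.sinh_nonneg_iff.2 hs.le
  have hsh2 := sh_le2 hs.le hs1
  have hkey := key_le hs.le hs1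
  have hkey0 : 0 ≤ 2 * Real.exp s * Real.sinh s ^ 2 := by positivity
  have hex0 := Real.exp_pos (-s)
  have hex1 : Real.exp (-s) ≤ 1 := Real.exp_le_one_iff.2 (by linarith)
  have hr0 : 0 ≤ √e := Real.sqrt_nonneg e
  have hre : e ≤ √e := by
    have h3 : √e * √e = e := Real.mul_self_sqrt he.le
    have h4 : √e ≤ 1 := Real.sqrt_le_one.2 he1
    nlinarith
  generalize Real.cosh s = c at *
  generalize Real.sinh s = h at *
  generalize hP : 2 * Real.exp s * h ^ 2 = P at *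
  generalize Real.exp (-s) = y at *
  generalize √e = r at *
  generalize hAA : E + 1 = A at *
  have hc0 : 0 ≤ c := by nlinarith
  have hc54 : c ≤ 5 / 4 := by linarith
  -- (1)
  have hI : ∀ k, Iq k ≤ 88 * A * s ^ 2 := by
    intro k
    have h3 := ha k
    have h4 := hn k
    have h5 := hq k
    have h6 : 7 / 8 * Iq k ≤ (1 - s ^ 3) * Iq k :=
      mul_le_mul_of_nonneg_right (by linarith) h5
    have h7 : s ^ 3 ≤ 1 / 2 * (A * s ^ 2) := by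
      calc s ^ 3 = s * s ^ 2 := by ring
        _ ≤ 1 / 2 * s ^ 2 := mul_le_mul_of_nonneg_right hs1 hs20
        _ ≤ 1 / 2 * (A * s ^ 2) := by nlinarith
    nlinarith
  -- (2)
  have hEG : ∀ k, Eg + Iq k - 89 * A * s ^ 3 ≤ EG k := by
    intro k
    have h3 := ha k
    have h4 : s ^ 3 * Iq k ≤ 88 * A * s ^ 3 := by
      calc s ^ 3 * Iq k ≤ s ^ 3 * (88 * A * s ^ 2) := mul_le_mul_of_nonneg_left (hI k) hs30
        _ = 88 * A * s ^ 3 * s ^ 2 := by ring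
        _ ≤ 88 * A * s ^ 3 * 1 := mul_le_mul_of_nonneg_left (by linarith) (by positivity)
        _ = 88 * A * s ^ 3 := mul_one _
    have h5 : s ^ 3 ≤ A * s ^ 3 := by nlinarith
    nlinarith
  -- (3)
  have hsum : 4 * (c * Eg - 89 * A * s ^ 3 * c - s ^ 6) + ∑ k, (c * Iq k + h * CS k) +
      h * ∑ k, CO k ≤ ∑ k, Ek k := by
    have h3 : ∀ k ∈ (Finset.univ : Finset (Fin 4)), (c * Eg - 89 * A * s ^ 3 * c - s ^ 6) +
        (c * Iq k + h * CS k) + h * CO k ≤ Ek k := by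
      intro k _
      have h4 := mul_le_mul_of_nonneg_left (hEG k) hc0
      have h5 := hk k
      nlinarith
    have h4 := Finset.sum_le_sum h3
    rw [Finset.sum_add_distrib, Finset.sum_add_distrib, Finset.sum_const, Finset.card_univ,
      Fintype.card_fin, ← Finset.mul_sum, nsmul_eq_mul] at h4
    push_cast at h4
    exact h4
  -- (4)
  have h4 : 4 * E - 10 * A * s ^ 3 ≤ 4 * (c * Eg) - P * Eg := by
    have h5 : 0 ≤ Eg := hE.trans h1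
    have h6 : (1 + s ^ 2 / 2) * Eg ≤ c * Eg := mul_le_mul_of_nonneg_right hch1 h5
    have h7 : P * Eg ≤ (2 * s ^ 2 + 10 * s ^ 3) * Eg := mul_le_mul_of_nonneg_right hkey h5
    have h8 : s ^ 6 ≤ 1 := by
      calc s ^ 6 = s ^ 3 * s ^ 3 := by ring
        _ ≤ 1 / 8 * (1 / 8) := mul_le_mul hs3 hs3 hs30 (by norm_num)
        _ ≤ 1 := by norm_num
    have h9 : s ^ 3 * Eg ≤ s ^ 3 * A := mul_le_mul_of_nonneg_left (by linarith) hs30
    nlinarith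
  -- (5)
  have h5 : 4 * y * LJ ≤ 4 * K * r * s ^ 2 := by
    have h6 : LJ ≤ K * r * s ^ 2 := (le_abs_self LJ).trans hL
    have h7 : 0 ≤ K * r * s ^ 2 := (abs_nonneg LJ).trans hL
    have h8 : y * LJ ≤ K * r * s ^ 2 := by
      calc y * LJ ≤ y * (K * r * s ^ 2) := mul_le_mul_of_nonneg_left h6 hex0.le
        _ ≤ 1 * (K * r * s ^ 2) := mul_le_mul_of_nonneg_right hex1 h7
        _ = K * r * s ^ 2 := one_mul _
    nlinarith
  -- (6)
  have h6 : P * e ≤ 7 * (A * r * s ^ 2) := by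
    have h7 : P ≤ 7 * s ^ 2 := by
      have h8 : s ^ 3 ≤ 1 / 2 * s ^ 2 := by
        calc s ^ 3 = s * s ^ 2 := by ring
          _ ≤ 1 / 2 * s ^ 2 := mul_le_mul_of_nonneg_right hs1 hs20
      linarith
    calc P * e ≤ 7 * s ^ 2 * r := mul_le_mul h7 hre he.le (by positivity)
      _ = 1 * (7 * (r * s ^ 2)) := by ring
      _ ≤ A * (7 * (r * s ^ 2)) := mul_le_mul_of_nonneg_right hA (by positivity)
      _ = 7 * (A * r * s ^ 2) := by ring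
  -- (7)
  have h7 : -(1502 * (A * s ^ 3)) - 1208 * (A * r * s ^ 2) ≤ h * ∑ k, CO k := by
    have h8 : 0 ≤ 150 * A * s ^ 2 + 151 * A * s * (r + s ^ 3) := by positivity
    have h9 : h * -(4 * (150 * A * s ^ 2 + 151 * A * s * (r + s ^ 3))) ≤ h * ∑ k, CO k :=
      mul_le_mul_of_nonneg_left ho hsh0
    have h10 : h * (4 * (150 * A * s ^ 2 + 151 * A * s * (r + s ^ 3))) ≤
        2 * s * (4 * (150 * A * s ^ 2 + 151 * A * s * (r + s ^ 3))) :=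
      mul_le_mul_of_nonneg_right hsh2 (by positivity)
    have h11 : A * s ^ 5 ≤ 1 / 4 * (A * s ^ 3) := by
      calc A * s ^ 5 = A * s ^ 3 * s ^ 2 := by ring
        _ ≤ A * s ^ 3 * (1 / 4) := mul_le_mul_of_nonneg_left hs2 (by positivity)
        _ = 1 / 4 * (A * s ^ 3) := by ring
    have h12 : 2 * s * (4 * (150 * A * s ^ 2 + 151 * A * s * (r + s ^ 3))) =
        1200 * (A * s ^ 3) + 1208 * (A * r * s ^ 2) + 1208 * (A * s ^ 5) := by ring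
    linarith
  -- (8)
  have h8 : 4 * (89 * A * s ^ 3 * c) ≤ 445 * (A * s ^ 3) := by
    have h9 : A * s ^ 3 * c ≤ A * s ^ 3 * (5 / 4) :=
      mul_le_mul_of_nonneg_left hc54 (by positivity)
    linarith
  have h9 : 4 * s ^ 6 ≤ A * s ^ 3 := by
    have h10 : s ^ 6 ≤ 1 / 8 * s ^ 3 := by
      calc s ^ 6 = s ^ 3 * s ^ 3 := by ring
        _ ≤ 1 / 8 * s ^ 3 := mul_le_mul_of_nonneg_right hs3 hs30
    have h11 : s ^ 3 ≤ A * s ^ 3 := by nlinarith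
    linarith
  have h10 : 0 ≤ A * s ^ 3 := by positivity
  have h11 : 0 ≤ A * r * s ^ 2 := by positivity
  have h12 : 0 ≤ K * s ^ 3 := by positivity
  have e1 : (4 * K + 5000 * A) * r * s ^ 2 = 4 * K * r * s ^ 2 + 5000 * (A * r * s ^ 2) := by ring
  have e2 : (4 * K + 5000 * A) * s ^ 3 = 4 * (K * s ^ 3) + 5000 * (A * s ^ 3) := by ring
  rw [e1, e2]
  have e3 : P * (Eg + e) = P * Eg + P * e := by ring
  rw [e3] at hp
  linarith

end H46NS
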