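import Pool.Agent.H46.NS.Sa
import Pool.Agent.H46.NS.Sb
import Pool.Agent.H46.NS.Sc
import Pool.Agent.H46.NS.Sd

/-!
MP_b319aa_NA, S7: assembly (helper46; no row).
-/

set_option autoImplicit false

namespace H46NS

open H50NA H98NX H46XB MeasureTheory Set Filter Topology
open H80HM (D U P f1 f2)
open H46SB (gr)
open scoped NNReal

variable {X : Type} [MetricSpace X] {gm : X → X → ℝ → X} {A B C : X ≃ᵢ X}

theorem U_ms : MeasurableSet (U : Set (ℝ × ℝ)) := H46XB.Vb_open.measurableSet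

theorem S_sub {r : ℝ} {S : Set (ℝ × ℝ)} (hSG : S ⊆ Gd r) : S ∩ U ⊆ U \ Zr r := fun _ hz =>
  ⟨hz.2, fun h => (hSG hz.1).2 (Or.inr h)⟩

/-- energies on and off S -/
theorem s7_off (hX : Npc X gm) {r e ep : ℝ} {o : X} {x y : ℝ} (hr : 0 < r) (hr8 : r < 1 / 8) (hy : 0 < y)
    {u : ℝ × ℝ → X} (hu : Lim A B C r o x y u) {l : ℝ × ℝ → ℝ} {S : Set (ℝ × ℝ)} (hl : CutL r e (e2 x y u) l S)
    {g : ℝ × ℝ → X} (hg : Nr A B C r o x y ep g) (hgu : ∀ z ∈ S, g z = u z) :
    ∫ z in U \ S, e2 x y g z ≤ e + ep ∧ IntegrableOn (fun z => (2 - l z) * e2 x y g z) (S ∩ U) ∧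
      ∫ z in S ∩ U, (2 - l z) * e2 x y g z ≤ Ex x y g + e := by
  obtain ⟨hi, hE⟩ := lim_en hX hr hr8 hy hu
  have hSm : MeasurableSet S := hl.cpt.measurableSet
  have hSU : MeasurableSet (S ∩ U) := hSm.inter U_ms
  have hZm : MeasurableSet (Zr r) := by unfold Zr; exact measurableSet_closedBall
  have hWm : MeasurableSet (U \ Zr r) := U_ms.diff hZm
  have hgl := clx_lpo hg.1.cl
  have hgi := e2_int hX hgl hg.1.cl.fin x y
  have hu0 : ∀ z, 0 ≤ e2 x y u z := fun z => add_nonneg (sq_nonneg _) (sq_nonneg _)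
  have hg0 : ∀ z, 0 ≤ e2 x y g z := fun z => add_nonneg (sq_nonneg _) (sq_nonneg _)
  -- the speeds agree on S
  have heq : ∀ᵐ z ∂(volume : Measure (ℝ × ℝ)), z ∈ S ∩ U → e2 x y g z = e2 x y u z := by
    filter_upwards [s7_eq hl.cpt hl.sub hu.lip hg.1.cl.lip hgu (f1 x y),
      s7_eq hl.cpt hl.sub hu.lip hg.1.cl.lip hgu (f2 x y)] with z h1 h2 hz
    unfold e2
    rw [h1 hz, h2 hz]
  have hSe : ∫ z in S ∩ U, e2 x y g z = ∫ z in S ∩ U, e2 x y u z := setIntegral_congr_ae hSU heq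
  -- the part of the energy of u off S or where l is not 1
  have hlc : Continuous l := by
    obtain ⟨K, hK⟩ := hl.lip
    exact hK.continuous
  have hlm : MeasurableSet {z | l z ≠ 1} := (isOpen_ne_fun hlc continuous_const).measurableSet
  have hoff : ∫ z in (U \ Zr r) \ (S ∩ U), e2 x y u z ≤ e := by
    refine le_trans (setIntegral_mono_set (hi.mono_set inter_subset_left) (Eventually.of_forall hu0) ?_) hl.en
    refine (Eventually.of_forall fun z hz => ?_)
    obtain ⟨⟨hzU, hzZ⟩, hzS⟩ := hz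
    have h1 : z ∉ S := fun h => hzS ⟨h, hzU⟩
    have h2 : l z = 0 := hl.off z (H46XB.U_sub hzU).1 h1
    refine ⟨⟨hzU, hzZ⟩, ?_⟩
    show l z ≠ 1
    rw [h2]
    exact zero_ne_one
  have hsum : ∫ z in (U \ Zr r) \ (S ∩ U), e2 x y u z = E0 A B C r o x y - ∫ z in S ∩ U, e2 x y u z := by
    rw [← hE, setIntegral_sdiff hSU hi (S_sub hl.sub)]
  have hgs : ∫ z in U \ S, e2 x y g z = Ex x y g - ∫ z in S ∩ U, e2 x y g z := by
    have h1 : U \ S = U \ (S ∩ U) := by
      ext z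
      simp only [Set.mem_sdiff, mem_inter_iff]
      tauto
    rw [h1, setIntegral_sdiff hSU hgi inter_subset_right]
    rfl
  have hg2 := hg.2
  refine ⟨by linarith, ?_, ?_⟩
  · have h1 : IntegrableOn (fun z => 2 * e2 x y g z) (S ∩ U) := (hgi.mono_set inter_subset_right).const_mul 2
    refine Integrable.mono' h1 ?_ ?_
    · exact ((continuous_const.sub hlc).aestronglyMeasurable).mul (hgi.mono_set inter_subset_right).aestronglyMeasurable
    · refine Eventually.of_forall fun z => ?_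
      have h2 := hl.bd z
      rw [Real.norm_of_nonneg (mul_nonneg (by linarith) (hg0 z))]
      exact mul_le_mul_of_nonneg_right (by linarith) (hg0 z)
  · have i1 : IntegrableOn (e2 x y g) (S ∩ U) := hgi.mono_set inter_subset_right
    have i2 : IntegrableOn (({z | l z ≠ 1} : Set (ℝ × ℝ)).indicator (e2 x y g)) (S ∩ U) := i1.indicator hlm
    have h1 : ∫ z in S ∩ U, (2 - l z) * e2 x y g z ≤
        ∫ z in S ∩ U, (e2 x y g z + ({z | l z ≠ 1} : Set (ℝ × ℝ)).indicator (e2 x y g) z) := by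
      refine integral_mono_of_nonneg (Eventually.of_forall fun z => ?_) (i1.add i2) (Eventually.of_forall fun z => ?_)
      · have h2 := hl.bd z
        exact mul_nonneg (by linarith) (hg0 z)
      · show (2 - l z) * e2 x y g z ≤ e2 x y g z + ({z | l z ≠ 1} : Set (ℝ × ℝ)).indicator (e2 x y g) z
        by_cases h : l z = 1
        · rw [indicator_of_notMem (by simp [h]), h]
          linarith
        · rw [indicator_of_mem (show z ∈ {z | l z ≠ 1} from h)]
          have h2 := hl.bd z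
          nlinarith [hg0 z]
    rw [integral_add i1 i2] at h1
    have h3 : ∫ z in S ∩ U, e2 x y g z ≤ Ex x y g :=
      setIntegral_mono_set hgi (Eventually.of_forall hg0) (Eventually.of_forall fun z hz => hz.2)
    have h4 : ∫ z in S ∩ U, ({z | l z ≠ 1} : Set (ℝ × ℝ)).indicator (e2 x y g) z ≤ e := by
      rw [setIntegral_indicator hlm]
      have h5 : ∫ z in (S ∩ U) ∩ {z | l z ≠ 1}, e2 x y g z = ∫ z in (S ∩ U) ∩ {z | l z ≠ 1}, e2 x y u z := by
        refine setIntegral_congr_ae (hSU.inter hlm) ?_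
        filter_upwards [heq] with z hz hz2
        exact hz hz2.1
      rw [h5]
      refine le_trans (setIntegral_mono_set (hi.mono_set inter_subset_left) (Eventually.of_forall hu0)
        (Eventually.of_forall fun z hz => ?_)) hl.en
      exact ⟨S_sub hl.sub hz.1, hz.2⟩
    linarith

theorem s7 (hX : Npc X gm) {r : ℝ} {o : X} {x y : ℝ} (hr : 0 < r) (hr8 : r < 1 / 8) (hy : 0 < y)
    {u : ℝ × ℝ → X} (hu : Lim A B C r o x y u) :
    ∃ M : ℝ, 0 ≤ M ∧ ∀ e s : ℝ, 0 < e → e ≤ 1 → 0 < s → s ≤ 1 / 2 →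
      ∀ (l : ℝ × ℝ → ℝ) (S : Set (ℝ × ℝ)), CutL r e (e2 x y u) l S →
      ∀ w : Fin 4 → ℝ × ℝ → X, (∀ k, Lim A B C r o (tx x y s k) (ty y s k) (w k)) →
      ∀ (Q : Fin 4 → ℝ × ℝ → ℝ × ℝ → ℝ) (J : ℝ × ℝ → ℝ) (om : ℝ × ℝ → ℝ × ℝ → ℝ),
        PW gm l S x y s u w Q J om →
        4 * E0 A B C r o x y - M * Real.sqrt e * s ^ 2 - M * s ^ 3 ≤
          ∑ k, E0 A B C r o (tx x y s k) (ty y s k) := by
  have hE0 : 0 ≤ E0 A B C r o x y := E0_nonneg r o x y
  obtain ⟨E, hE⟩ : ∃ E, E = E0 A B C r o x y := ⟨_, rfl⟩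
  have hkap : 0 ≤ kap x y := by unfold kap; positivity
  have hkap' : 0 ≤ kap' x y := by unfold kap'; positivity
  rw [← hE] at hE0 ⊢
  obtain ⟨c, hc⟩ : ∃ c, c = ((1 / (2 * r) + 1 / 2) * kap x y + kap x y) * (150 * (E + 1)) := ⟨_, rfl⟩
  have hc0 : 0 ≤ c := by rw [hc]; positivity
  obtain ⟨K, hK⟩ : ∃ K, K = kap' x y * c / 2 + 44 * (E + 1) := ⟨_, rfl⟩
  have hK0 : 0 ≤ K := by rw [hK]; positivity
  refine ⟨4 * K + 5000 * (E + 1), by positivity, ?_⟩
  intro e s he he1 hs hs1 l S hl w hw Q J om pw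
  have hsq : 0 < √e := Real.sqrt_pos.2 he
  have hs6 : 0 < s ^ 6 := by positivity
  have hs62 : s ^ 6 ≤ s ^ 2 := pow_le_pow_of_le_one hs.le (by linarith) (by norm_num)
  have hs61 : s ^ 6 ≤ 1 := pow_le_one₀ hs.le (by linarith)
  obtain ⟨g, hg, hgu⟩ := hu.app S hl.sub hl.cpt (s ^ 6) hs6
  have hG' := fun k => (hw k).app S hl.sub hl.cpt (s ^ 6) hs6
  choose G hG hGw using hG'
  have hSm : MeasurableSet S := hl.cpt.measurableSet
  have hSU : MeasurableSet (S ∩ U) := hSm.inter U_ms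
  obtain ⟨hoff, hi2, hi2'⟩ := s7_off hX hr hr8 hy hu hl hg hgu
  have hf1 : f1 x y ∈ ({f1 x y, f2 x y} : Set (ℝ × ℝ)) := by simp
  have hf2 : f2 x y ∈ ({f1 x y, f2 x y} : Set (ℝ × ℝ)) := by simp
  -- integrals of Q
  obtain ⟨Iq, hIq⟩ : ∃ Iq : Fin 4 → ℝ, Iq = fun k => ∫ z in S ∩ U, (Q k (f1 x y) z + Q k (f2 x y) z) := ⟨_, rfl⟩
  have hQi : ∀ k, IntegrableOn (fun z => Q k (f1 x y) z + Q k (f2 x y) z) (S ∩ U) := fun k =>
    (pw.qint k _ hf1).add (pw.qint k _ hf2)
  have hIq0 : ∀ k, 0 ≤ Iq k := by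
    intro k
    rw [hIq]
    refine integral_nonneg_of_ae ?_
    rw [EventuallyLE, ae_restrict_iff' hSU]
    filter_upwards [pw.qnn k _ hf1, pw.qnn k _ hf2] with z h1 h2 hz
    exact add_nonneg (h1 hz) (h2 hz)
  have h3 : s ^ 3 ≤ 1 / 8 := by
    have := pow_le_pow_left₀ hs.le hs1 3
    norm_num at this
    linarith
  have h30 : 0 < s ^ 3 := by positivity
  have ha : ∀ k, Ex x y g + (1 - s ^ 3) * Iq k ≤ Ex x y (G k) + s ^ 3 := by
    intro k
    have h4 := s7_a hX hl.cpt hl.sub hu.lip (hw k).lip hg (hG k).1 hgu (hGw k) h30.le (by linarith)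
      (q := Q k) (pw.qint k) (fun t ht => pw.pw1 k t ht (s ^ 3) h30.le (by linarith))
    rw [hIq]
    have h5 : s ^ 3 * (Ex x y g + (1 - s ^ 3) * ∫ z in S ∩ U, (Q k (f1 x y) z + Q k (f2 x y) z)) ≤
        s ^ 3 * (Ex x y (G k) + s ^ 3) := by nlinarith
    exact le_of_mul_le_mul_left h5 h30
  have hn : ∀ k, Ex x y (G k) ≤ Ex x y g + 75 * (E + 1) * s ^ 2 := by
    intro k
    rw [hE]
    exact near_two_ex hX hs.le (by linarith) hs62 hs61 (fun h hh => ex_tau_hk hX hh x hy s k) hg (hG k)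
  -- splitting of the trace free parts
  obtain ⟨CS, hCS⟩ : ∃ CS : Fin 4 → ℝ, CS = fun k => ∫ z in S ∩ U, cc k x y (G k) z := ⟨_, rfl⟩
  obtain ⟨CO, hCO⟩ : ∃ CO : Fin 4 → ℝ, CO = fun k => ∫ z in U \ S, cc k x y (G k) z := ⟨_, rfl⟩
  have hcci : ∀ k, IntegrableOn (cc k x y (G k)) U := fun k => cc_int hX (hG k).1.cl x y k
  have hccg : ∀ k, IntegrableOn (cc k x y g) U := fun k => cc_int hX hg.1.cl x y k
  have hsplit : ∀ k, ∫ z in U, cc k x y (G k) z = CS k + CO k := by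
    intro k
    rw [hCS, hCO]
    have h1 := integral_inter_add_sdiff hSm (hcci k)
    rw [inter_comm] at h1
    exact h1.symm
  have hk : ∀ k, Real.cosh s * Ex x y (G k) + Real.sinh s * (CS k + CO k) - s ^ 6 ≤
      E0 A B C r o (tx x y s k) (ty y s k) := by
    intro k
    have h1 := (hG k).2
    rw [ex_tau hX (hG k).1.cl x hy s k, hsplit k] at h1
    linarith
  have ho : -(4 * (150 * (E + 1) * s ^ 2 + 151 * (E + 1) * s * (√e + s ^ 3))) ≤ ∑ k, CO k := by
    obtain ⟨lam, hlam⟩ : ∃ lam, lam = (√e + s ^ 3) / s := ⟨_, rfl⟩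
    have hlam0 : 0 < lam := by rw [hlam]; positivity
    have h1 : ∀ k, |∫ z in U \ S, (cc k x y (G k) z - cc k x y g z)| ≤
        150 * (E + 1) * s ^ 2 + 151 * (E + 1) * s * (√e + s ^ 3) := by
      intro k
      have h2 := s7_cc hX hy hs.le (by linarith) hs62 hs61 k hg (hG k) hSm hlam0
      rw [← hE] at h2
      refine h2.trans ?_
      have h3 : 1 / lam * ∫ z in U \ S, e2 x y g z ≤ s * (√e + s ^ 3) := by
        have h4 : 1 / lam * ∫ z in U \ S, e2 x y g z ≤ 1 / lam * (e + s ^ 6) :=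
          mul_le_mul_of_nonneg_left hoff (by positivity)
        refine h4.trans ?_
        rw [hlam, one_div_div, div_mul_eq_mul_div, div_le_iff₀ (by positivity)]
        have h5 : e + s ^ 6 ≤ (√e + s ^ 3) ^ 2 := by
          have h6 : √e ^ 2 = e := Real.sq_sqrt he.le
          nlinarith [mul_pos hsq h30]
        nlinarith
      have h7 : (1 + lam) * (150 * (E + 1) * s ^ 2) = 150 * (E + 1) * s ^ 2 + 150 * (E + 1) * s * (√e + s ^ 3) := by
        rw [hlam]
        field_simp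
      rw [h7]
      have h8 : s * (√e + s ^ 3) ≤ (E + 1) * (s * (√e + s ^ 3)) := by
        refine le_mul_of_one_le_left (by positivity) (by linarith)
      nlinarith
    have h2 : ∑ k, CO k = ∑ k, ∫ z in U \ S, (cc k x y (G k) z - cc k x y g z) := by
      have h3 : ∀ k, ∫ z in U \ S, (cc k x y (G k) z - cc k x y g z) = CO k - ∫ z in U \ S, cc k x y g z := by
        intro k
        rw [hCO, integral_sub ((hcci k).mono_set sdiff_subset) ((hccg k).mono_set sdiff_subset)]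
      rw [Finset.sum_congr rfl fun k _ => h3 k, Finset.sum_sub_distrib,
        ← integral_finsetSum _ fun k _ => (hccg k).mono_set sdiff_subset]
      have h4 : ∀ z, ∑ k, cc k x y g z = 0 := fun z => cc_sum x y g z
      simp only [h4, integral_zero, sub_zero]
    rw [h2]
    have h5 : ∀ k, -(150 * (E + 1) * s ^ 2 + 151 * (E + 1) * s * (√e + s ^ 3)) ≤
        ∫ z in U \ S, (cc k x y (G k) z - cc k x y g z) := fun k => (abs_le.1 (h1 k)).1
    have h6 := Finset.sum_le_sum fun k (_ : k ∈ (Finset.univ : Finset (Fin 4))) => h5 k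
    rw [Finset.sum_const, Finset.card_univ, Fintype.card_fin, nsmul_eq_mul] at h6
    push_cast at h6
    linarith
  -- the inequality on S
  have hp : -(4 * Real.exp (-s) * ∫ z in S ∩ U, l z * J z) - 2 * Real.exp s * Real.sinh s ^ 2 * (Ex x y g + e) ≤
      ∑ k, (Real.cosh s * Iq k + Real.sinh s * CS k) := by
    have h1 : ∀ᵐ z ∂(volume : Measure (ℝ × ℝ)), z ∈ S ∩ U →
        -(4 * Real.exp (-s) * (l z * J z)) - 2 * Real.exp s * Real.sinh s ^ 2 * ((2 - l z) * e2 x y g z) ≤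
          ∑ k, (Real.cosh s * (Q k (f1 x y) z + Q k (f2 x y) z) + Real.sinh s * cc k x y (G k) z) := by
      have e1 := fun t => s7_eq hl.cpt hl.sub hu.lip hg.1.cl.lip hgu t
      have e2' := fun t k => s7_eq hl.cpt hl.sub (hw k).lip (hG k).1.cl.lip (hGw k) t
      have e3 : ∀ᵐ z ∂(volume : Measure (ℝ × ℝ)), ∀ k, z ∈ S ∩ U → cc k x y (G k) z = cc k x y (w k) z := by
        rw [ae_all_iff]
        intro k
        filter_upwards [e2' (f1 x y) k, e2' (f2 x y) k, e2' (f1 x y + f2 x y) k] with z a1 a2 a3 hz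
        unfold cc
        rw [a1 hz, a2 hz, a3 hz]
      filter_upwards [pw.pw2, e1 (f1 x y), e1 (f2 x y), e3] with z a0 a1 a2 a3 hz
      have h2 := a0 hz
      have h3 : e2 x y g z = e2 x y u z := by
        unfold e2
        rw [a1 hz, a2 hz]
      rw [h3]
      have h4 : ∑ k, (Real.cosh s * (Q k (f1 x y) z + Q k (f2 x y) z) + Real.sinh s * cc k x y (G k) z) =
          ∑ k, (Real.cosh s * (Q k (f1 x y) z + Q k (f2 x y) z) + Real.sinh s * cc k x y (w k) z) :=
        Finset.sum_congr rfl fun k _ => by rw [a3 k hz]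
      rw [h4]
      linarith
    have i1 : IntegrableOn (fun z => -(4 * Real.exp (-s) * (l z * J z))) (S ∩ U) := (pw.jint.const_mul _).neg
    have i2 : IntegrableOn (fun z => 2 * Real.exp s * Real.sinh s ^ 2 * ((2 - l z) * e2 x y g z)) (S ∩ U) :=
      hi2.const_mul _
    have i3 : ∀ k, IntegrableOn (fun z => Real.cosh s * (Q k (f1 x y) z + Q k (f2 x y) z) +
        Real.sinh s * cc k x y (G k) z) (S ∩ U) := fun k =>
      ((hQi k).const_mul _).add (((hcci k).mono_set inter_subset_right).const_mul _)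
    have h5 := integral_mono_ae (i1.sub i2) (integrable_finsetSum Finset.univ fun k _ => i3 k)
      ((ae_restrict_iff' hSU).2 h1)
    have h6 : ∫ z in S ∩ U, (-(4 * Real.exp (-s) * (l z * J z)) -
        2 * Real.exp s * Real.sinh s ^ 2 * ((2 - l z) * e2 x y g z)) =
        -(4 * Real.exp (-s) * ∫ z in S ∩ U, l z * J z) -
          2 * Real.exp s * Real.sinh s ^ 2 * ∫ z in S ∩ U, (2 - l z) * e2 x y g z := by
      rw [integral_sub i1 i2, integral_neg, integral_const_mul, integral_const_mul]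
    have h7 : ∫ z in S ∩ U, ∑ k, (Real.cosh s * (Q k (f1 x y) z + Q k (f2 x y) z) +
        Real.sinh s * cc k x y (G k) z) = ∑ k, (Real.cosh s * Iq k + Real.sinh s * CS k) := by
      rw [integral_finsetSum _ fun k _ => i3 k]
      refine Finset.sum_congr rfl fun k _ => ?_
      rw [integral_add ((hQi k).const_mul _) (((hcci k).mono_set inter_subset_right).const_mul _),
        integral_const_mul, integral_const_mul, hIq, hCS]
    have h8 : ∫ z in S ∩ U, (-(4 * Real.exp (-s) * (l z * J z)) -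
        2 * Real.exp s * Real.sinh s ^ 2 * ((2 - l z) * e2 x y g z)) ≤
        ∫ z in S ∩ U, ∑ k, (Real.cosh s * (Q k (f1 x y) z + Q k (f2 x y) z) +
          Real.sinh s * cc k x y (G k) z) := h5
    rw [h6, h7] at h8
    have h9 : 2 * Real.exp s * Real.sinh s ^ 2 * ∫ z in S ∩ U, (2 - l z) * e2 x y g z ≤
        2 * Real.exp s * Real.sinh s ^ 2 * (Ex x y g + e) :=
      mul_le_mul_of_nonneg_left hi2' (by positivity)
    linarith
  -- the term with J
  have hcap := fun k => s7_cap hX hr hr8 hy hs.le (by linarith) hs62 hs61 he.le k hg (hG k) hl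
  have hL : |∫ z in S ∩ U, l z * J z| ≤ K * √e * s ^ 2 := by
    have h1 := s7_d hy he hl pw hgu hGw (fun k => (hcap k).1) (c := c * s ^ 2) (fun k => by
      have h2 := (hcap k).2
      rw [← hE, ← hc] at h2
      exact h2)
    refine h1.trans ?_
    have hI : ∀ k, Iq k ≤ 88 * (E + 1) * s ^ 2 := by
      intro k
      have a1 := ha k
      have a2 := hn k
      have a3 : 0 ≤ (1 / 8 - s ^ 3) * Iq k := mul_nonneg (by linarith) (hIq0 k)
      have a4 : s ^ 3 ≤ (E + 1) * s ^ 2 := by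
        have a5 : s ^ 3 ≤ s ^ 2 := pow_le_pow_of_le_one hs.le (by linarith) (by norm_num)
        have a6 : s ^ 2 ≤ (E + 1) * s ^ 2 := le_mul_of_one_le_left (by positivity) (by linarith)
        linarith
      nlinarith
    have e1 : (∫ z in S ∩ U, (Q 1 (f1 x y) z + Q 1 (f2 x y) z)) = Iq 1 := by rw [hIq]
    have e3 : (∫ z in S ∩ U, (Q 3 (f1 x y) z + Q 3 (f2 x y) z)) = Iq 3 := by rw [hIq]
    rw [e1, e3]
    have h4 : kap' x y * (c * s ^ 2) / 2 + 1 / 4 * (Iq 1 + Iq 3) ≤ K * s ^ 2 := by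
      rw [hK]
      have := hI 1
      have := hI 3
      nlinarith
    calc √e * (kap' x y * (c * s ^ 2) / 2 + 1 / 4 * (Iq 1 + Iq 3)) ≤ √e * (K * s ^ 2) :=
        mul_le_mul_of_nonneg_left h4 hsq.le
      _ = _ := by ring
  have hg1 : E ≤ Ex x y g := by rw [hE]; exact E0_le hg.1 x y
  have hg2 : Ex x y g ≤ E + s ^ 6 := by rw [hE]; exact hg.2
  exact s7_arith hE0 he he1 hs hs1 hK0 hg1 hg2 hIq0 ha hn hk ho hp hL

end H46NS
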